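import Pool.Agent.Helper32.CH.Final

/-!
MP_7116bc_gt: Perelman's Lipschitz stability in the Gromov-Hausdorff closure of the class of
convex hypersurfaces (with the definitions of `Pool.Agent.Helper32.CH.Defs`).
-/

set_option autoImplicit false

namespace Pool.Agent.Results.MP_7116bc_gt.ConvexHypersurfaces

open Pool.Agent.Helper32.CH

/-- Let `n ≥ 1` and let `X` be a compact metric space of Hausdorff dimension `n` which is a
Gromov-Hausdorff limit of convex hypersurfaces of dimension `n`. Then there are `ε₀ > 0` and
`L ≥ 1` such that every limit `Y` of convex hypersurfaces of dimension `n` with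
`d_GH(X, Y) < ε₀` admits a surjective map `f : X → Y` with
`dist a b ≤ L * dist (f a) (f b)` and `dist (f a) (f b) ≤ L * dist a b` for all `a`, `b`. -/
theorem result :
    ∀ n : ℕ, 1 ≤ n → ∀ (X : Type) [MetricSpace X] [CompactSpace X] [Nonempty X],
      IsLimitOfConvexHypersurfaces n X →
      dimH (Set.univ : Set X) = (n : ENNReal) →
      ∃ ε₀ : ℝ, 0 < ε₀ ∧ ∃ L : ℝ, 1 ≤ L ∧
        ∀ (Y : Type) [MetricSpace Y] [CompactSpace Y] [Nonempty Y],
          IsLimitOfConvexHypersurfaces n Y →
          GromovHausdorff.ghDist X Y < ε₀ →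
          ∃ f : X → Y, Function.Surjective f ∧
            ∀ a b : X, dist a b ≤ L * dist (f a) (f b) ∧ dist (f a) (f b) ≤ L * dist a b :=
  fun n hn X _ _ _ hX hdim => stability n hn X hX hdim

end Pool.Agent.Results.MP_7116bc_gt.ConvexHypersurfaces
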